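import Pool.Agent.U122.DR.Dense
import Pool.Agent.U122.DR.Sparse

/-!
# Extending total colourings of distance-3 matchings in random graphs

The question is about every graph, every distance-3 matching in it and every total colouring of the
matching with `Δ + 2` colours. It is answered positively, for all matchings and all colourings at
once and with one colour less, for

* all dense random graphs with independent edges such that every vertex whose expected degree is
  close to the largest one has at least `c n` uncertain pairs: block models, random subgraphs of any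
  graph of linear maximum degree (whose diameter may be infinite), randomly perturbed graphs; the
  extension exists even from arbitrary lists of `Δ + 1` colours;
* the sparse random graphs `G(n, q)` with `1 / log n ≤ n q ≤ κ log n`, for every constant `κ`; for
  all `n q ≤ κ log n` with `Δ + 2` colours.

Proof. The deterministic theorems of the starting result `SparseLargeDegrees` are applied. In the
dense case there are at most `n ^ (1/4)` vertices of degree more than `Δ - ε √(n log n)` (library
theorem `Pool.Agent.Y393.RS.t_few`), in the sparse case every vertex has a bounded number of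
neighbours of degree more than `(1 - δ) Δ` (`Pool.Agent.U531.SR.structure_thm`, helper531). For
`n q < 1 / log n` the random graph is a forest.
-/

set_option autoImplicit false

namespace Pool.Agent.Results.MP_db9399_co.RandomGraphs

/-- Edge probabilities: `q e` is the probability that the pair `e` is an edge; all pairs are
independent. `prob q P` is the probability that the random graph has the property `P`. -/
noncomputable def prob {n : ℕ} (q : Sym2 (Fin n) → ℝ) (P : SimpleGraph (Fin n) → Prop) : ℝ := by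
  classical exact ∑ G : SimpleGraph (Fin n), if P G then
    (∏ e : {e : Sym2 (Fin n) // ¬ e.IsDiag}, if e.1 ∈ G.edgeSet then q e.1 else 1 - q e.1) else 0

/-- The expected degree of the vertex `v`. -/
noncomputable def expectedDegree {n : ℕ} (q : Sym2 (Fin n) → ℝ) (v : Fin n) : ℝ :=
  ∑ w ∈ Finset.univ.erase v, q s(v, w)

/-- The uncertainty at the vertex `v`: the sum of `min (q, 1 - q)` over all pairs at `v`. -/
noncomputable def uncertainty {n : ℕ} (q : Sym2 (Fin n) → ℝ) (v : Fin n) : ℝ :=
  ∑ w ∈ Finset.univ.erase v, min (q s(v, w)) (1 - q s(v, w))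

/-- The degree of `v` in `G`. -/
noncomputable def deg {n : ℕ} (G : SimpleGraph (Fin n)) (v : Fin n) : ℕ :=
  (G.neighborSet v).ncard

/-- The colours `c` of the vertices and `d` of the edges form a total colouring of `G`: adjacent
vertices get different colours, distinct edges with a common end get different colours, and an edge
gets a colour different from the colours of its ends. (Values of `d` at pairs that are not edges of
`G` play no role.) -/
structure IsTotalColoring {V : Type} (G : SimpleGraph V) (c : V → ℕ) (d : Sym2 V → ℕ) :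
    Prop where
  vert : ∀ u v, G.Adj u v → c u ≠ c v
  edge : ∀ u v w, G.Adj u v → G.Adj u w → v ≠ w → d s(u, v) ≠ d s(u, w)
  inc : ∀ u v, G.Adj u v → d s(u, v) ≠ c u

/-- `H` (with vertex set `H.support`) is a distance-3 matching in `G`. -/
structure IsDistThreeMatching {V : Type} (G H : SimpleGraph V) : Prop where
  le : H ≤ G
  matching : ∀ u v w, H.Adj u v → H.Adj u w → v = w
  dist : ∀ u ∈ H.support, ∀ v ∈ H.support, u ≠ v → ¬ H.Adj u v → 3 ≤ G.edist u v

/-- For every distance-3 matching `H` in `G` and every `k ≥ Δ(G) + s`, every total colouring of `H`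
with the colours `0, …, k - 1` extends to a total colouring of `G` with these colours. (The question
is whether `AllExtend 2 G` holds for all finite graphs `G`.) -/
def AllExtend (s : ℕ) {n : ℕ} (G : SimpleGraph (Fin n)) : Prop :=
  ∀ H : SimpleGraph (Fin n), IsDistThreeMatching G H → ∀ k : ℕ, (∀ v, deg G v + s ≤ k) →
    ∀ (c : Fin n → ℕ) (d : Sym2 (Fin n) → ℕ), IsTotalColoring H c d →
      (∀ v ∈ H.support, c v < k) → (∀ e ∈ H.edgeSet, d e < k) →
      ∃ (c' : Fin n → ℕ) (d' : Sym2 (Fin n) → ℕ), IsTotalColoring G c' d' ∧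
        (∀ v ∈ H.support, c' v = c v) ∧ (∀ e ∈ H.edgeSet, d' e = d e) ∧
        (∀ v, c' v < k) ∧ ∀ e ∈ G.edgeSet, d' e < k

/-- For every distance-3 matching `H` in `G` and every total colouring of `H` (with any colours):
if every vertex and every edge of `G` has a list of at least `Δ(G) + 1` colours, the colouring of
`H` extends to a total colouring of `G` in which all vertices and edges outside `H` get colours from
their lists. -/
def AllListExtend {n : ℕ} (G : SimpleGraph (Fin n)) : Prop :=
  ∀ H : SimpleGraph (Fin n), IsDistThreeMatching G H →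
    ∀ (L : Fin n → Finset ℕ) (M : Sym2 (Fin n) → Finset ℕ),
      (∀ v w, deg G v + 1 ≤ (L w).card) → (∀ v, ∀ e ∈ G.edgeSet, deg G v + 1 ≤ (M e).card) →
      ∀ (c : Fin n → ℕ) (d : Sym2 (Fin n) → ℕ), IsTotalColoring H c d →
        ∃ (c' : Fin n → ℕ) (d' : Sym2 (Fin n) → ℕ), IsTotalColoring G c' d' ∧
          (∀ v ∈ H.support, c' v = c v) ∧ (∀ e ∈ H.edgeSet, d' e = d e) ∧
          (∀ v, v ∉ H.support → c' v ∈ L v) ∧
          ∀ e ∈ G.edgeSet, e ∉ H.edgeSet → d' e ∈ M e

theorem listExtend_of {n : ℕ} (G : SimpleGraph (Fin n)) (h : Pool.Agent.U122.DR.PL G) :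
    AllListExtend G := by
  classical
  intro H hH L M hL hM c d hcd
  rcases isEmpty_or_nonempty (Fin n) with he | hne
  · refine ⟨c, d, ⟨fun u => he.elim u, fun u => he.elim u, fun u => he.elim u⟩, fun v => he.elim v,
      fun _ _ => rfl, fun v => he.elim v, ?_⟩
    intro e
    induction e using Sym2.ind with
    | _ u v => exact he.elim u
  · obtain ⟨v₀, hv₀⟩ := Finite.exists_max (fun v : Fin n => deg G v)
    obtain ⟨c', d', h1, h2, h3, h4, h5⟩ := h H ⟨hH.le, hH.matching, hH.dist⟩ (deg G v₀ + 1)
      (fun v => Nat.succ_le_succ (hv₀ v)) L M (fun w => hL v₀ w) (fun e he => hM v₀ e he) c d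
      ⟨hcd.vert, hcd.edge, hcd.inc⟩
    exact ⟨c', d', ⟨h1.vert, h1.edge, h1.inc⟩, h2, h3, h4, h5⟩

theorem extend_of {n : ℕ} (s : ℕ) (G : SimpleGraph (Fin n)) (h : Pool.Agent.U122.DR.PE s G) :
    AllExtend s G := by
  intro H hH k hk c d hcd hc hd
  obtain ⟨c', d', h1, h2⟩ := h H ⟨hH.le, hH.matching, hH.dist⟩ k hk c d
    ⟨hcd.vert, hcd.edge, hcd.inc⟩ hc hd
  exact ⟨c', d', ⟨h1.vert, h1.edge, h1.inc⟩, h2⟩

theorem prob_mono {n : ℕ} {q : Sym2 (Fin n) → ℝ} (hq : ∀ e, 0 ≤ q e ∧ q e ≤ 1)
    {P Q : SimpleGraph (Fin n) → Prop} (h : ∀ G, P G → Q G) : prob q P ≤ prob q Q := by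
  classical
  unfold prob
  refine Finset.sum_le_sum fun G _ => ?_
  have h0 : 0 ≤ ∏ e : {e : Sym2 (Fin n) // ¬ e.IsDiag},
      if e.1 ∈ G.edgeSet then q e.1 else 1 - q e.1 := by
    refine Finset.prod_nonneg fun e _ => ?_
    split_ifs
    · exact (hq e.1).1
    · have := (hq e.1).2
      linarith
  split_ifs with h1 h2 h2
  · exact le_rfl
  · exact absurd (h G h1) h2
  · exact h0
  · exact le_rfl

/-- (1) For all `c, ε > 0` and all large `n`: every random graph on `n` vertices with independent
edges in which every vertex has uncertainty at least `c n`, or expected degree at least `c n` below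
the largest one, has with probability at least `1 - ε` the property `AllListExtend`: every total
colouring of every distance-3 matching extends from all lists of `Δ + 1` colours.

(2) Let `F ≤ B` be graphs on `n` vertices such that every vertex `v` satisfies
`deg B v - deg F v ≥ c n`, or `deg F v + deg B v ≤ max (deg F + deg B) - c n`. All but an
`ε`-fraction of the graphs `G` with `F ≤ G ≤ B` have this property.

(3) Let `B` be a graph on `n` vertices with maximum degree at least `c n`. All but an `ε`-fraction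
of the spanning subgraphs of `B` have this property.

(4) For all `κ, ε > 0`, all large `n` and all `0 ≤ q ≤ 1` with `n q ≤ κ log n`: with probability at
least `1 - ε` the random graph `G(n, q)` has the property of the question (`AllExtend 2`), and even
`AllExtend 1` if `n q ≥ 1 / log n`. -/
theorem result :
    (∀ c ε : ℝ, 0 < c → 0 < ε → ∃ N : ℕ, ∀ n : ℕ, N ≤ n → ∀ q : Sym2 (Fin n) → ℝ,
      (∀ e, 0 ≤ q e ∧ q e ≤ 1) →
      (∀ v, c * n ≤ uncertainty q v ∨
        ∃ u, expectedDegree q v + c * n ≤ expectedDegree q u) →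
      1 - ε ≤ prob q (fun G => AllListExtend G)) ∧
    (∀ c ε : ℝ, 0 < c → 0 < ε → ∃ N : ℕ, ∀ n : ℕ, N ≤ n → ∀ F B : SimpleGraph (Fin n), F ≤ B →
      (∀ v, (deg F v : ℝ) + c * n ≤ deg B v ∨
        ∃ u, (deg F v : ℝ) + deg B v + c * n ≤ deg F u + deg B u) →
      ({G : SimpleGraph (Fin n) | F ≤ G ∧ G ≤ B ∧ ¬ AllListExtend G}.ncard : ℝ) ≤
        ε * {G : SimpleGraph (Fin n) | F ≤ G ∧ G ≤ B}.ncard) ∧
    (∀ c ε : ℝ, 0 < c → 0 < ε → ∃ N : ℕ, ∀ n : ℕ, N ≤ n → ∀ B : SimpleGraph (Fin n),
      (∃ v, c * n ≤ deg B v) →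
      ({G : SimpleGraph (Fin n) | G ≤ B ∧ ¬ AllListExtend G}.ncard : ℝ) ≤
        ε * {G : SimpleGraph (Fin n) | G ≤ B}.ncard) ∧
    ∀ κ ε : ℝ, 0 < κ → 0 < ε → ∃ N : ℕ, ∀ n : ℕ, N ≤ n → ∀ q : ℝ, 0 ≤ q → q ≤ 1 →
      (n : ℝ) * q ≤ κ * Real.log n →
      1 - ε ≤ prob (fun _ => q) (fun G : SimpleGraph (Fin n) =>
        AllExtend 2 G ∧ (1 / Real.log n ≤ n * q → AllExtend 1 G)) := by
  classical
  refine ⟨?_, ?_, ?_, ?_⟩
  · intro c ε hc hε
    obtain ⟨N, hN⟩ := Pool.Agent.U122.DR.typical_pl.1 c ε hc hε
    refine ⟨N, fun n hn q h1 h2 => ?_⟩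
    exact (hN n hn q ⟨h1, h2⟩).trans (prob_mono h1 (fun G hG => listExtend_of G hG))
  · intro c ε hc hε
    obtain ⟨N, hN⟩ := Pool.Agent.U122.DR.typical_pl.2.1 c ε hc hε
    refine ⟨N, fun n hn F B h1 h2 => le_trans ?_ (hN n hn F B h1 h2)⟩
    have h3 : {G : SimpleGraph (Fin n) | F ≤ G ∧ G ≤ B ∧ ¬ AllListExtend G} ⊆
        {G : SimpleGraph (Fin n) | F ≤ G ∧ G ≤ B ∧ ¬ Pool.Agent.U122.DR.PL G} :=
      fun G hG => ⟨hG.1, hG.2.1, fun h => hG.2.2 (listExtend_of G h)⟩
    exact_mod_cast Set.ncard_le_ncard h3 (Set.toFinite _)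
  · intro c ε hc hε
    obtain ⟨N, hN⟩ := Pool.Agent.U122.DR.typical_pl.2.2 c ε hc hε
    refine ⟨N, fun n hn B h1 => le_trans ?_ (hN n hn B h1)⟩
    have h3 : {G : SimpleGraph (Fin n) | G ≤ B ∧ ¬ AllListExtend G} ⊆
        {G : SimpleGraph (Fin n) | G ≤ B ∧ ¬ Pool.Agent.U122.DR.PL G} :=
      fun G hG => ⟨hG.1, fun h => hG.2 (listExtend_of G h)⟩
    exact_mod_cast Set.ncard_le_ncard h3 (Set.toFinite _)
  · intro κ ε hκ hε
    obtain ⟨N, hN⟩ := Pool.Agent.U122.DR.sparse_main κ hκ ε hε
    refine ⟨N, fun n hn q h0 h1 hq => (hN n hn q h0 h1 hq).trans ?_⟩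
    exact prob_mono (q := fun _ => q) (fun _ => ⟨h0, h1⟩)
      (fun G hG => ⟨extend_of 2 G hG.1, fun h => extend_of 1 G (hG.2 h)⟩)

end Pool.Agent.Results.MP_db9399_co.RandomGraphs
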