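import Pool.Agent.U531.SR.Ext

set_option autoImplicit false

/-!
# Extending total colourings of distance-3 matchings in random graphs of all densities

Asymptotically almost surely, uniformly in `q ≤ 1 - c` for every constant `c > 0`, the random graph
`G = G(n, q)` has the property asked for in the question, for all distance-3 matchings `H` and all
total colourings of `H` with `Δ + 2` colours at once; if `n q ≥ 1 / log n`, already with `Δ + 1`
colours.

The ranges `n q ≤ κ log n` and `n q ≥ c n` are in the result `RandomGraphs` of helper122 (the first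
one is quoted from there). New is the range between them. The deterministic theorem of the starting
result `SparseLargeDegrees` is applied: it suffices that for some `b` every vertex has at most `b`
neighbours of degree more than `Δ - 2502 (b + 2) (1 + log n) ≥ 0`. For `n q ≥ κ log n`, `κ` large,
and `q ≤ 1 - c` this holds by `Pool.Agent.U531.SR.win_thm`: the maximum degree is estimated by the
second moment, the other large degrees by comparing consecutive terms of the binomial distribution
over a window of length of order `√(n q log n)`.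
-/

namespace Pool.Agent.Results.MP_db9399_co.RandomGraphsAllDensities

/-- `prob q P` is the probability that the random graph `G(n, q)` has the property `P`: every pair
of different vertices is an edge with probability `q`, independently. -/
noncomputable def prob {n : ℕ} (q : ℝ) (P : SimpleGraph (Fin n) → Prop) : ℝ := by
  classical exact ∑ G : SimpleGraph (Fin n), if P G then
    (∏ e : {e : Sym2 (Fin n) // ¬ e.IsDiag}, if e.1 ∈ G.edgeSet then q else 1 - q) else 0

/-- The colours `c` of the vertices and `d` of the edges form a total colouring of `G`: adjacent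
vertices get different colours, distinct edges with a common end get different colours, and an edge
gets a colour different from the colours of its ends. (Values of `d` at pairs that are not edges of
`G` play no role.) -/
structure IsTotalColoring {V : Type} (G : SimpleGraph V) (c : V → ℕ) (d : Sym2 V → ℕ) :
    Prop where
  vert : ∀ u v, G.Adj u v → c u ≠ c v
  edge : ∀ u v w, G.Adj u v → G.Adj u w → v ≠ w → d s(u, v) ≠ d s(u, w)
  inc : ∀ u v, G.Adj u v → d s(u, v) ≠ c u

/-- `H` (with vertex set `H.support`) is a distance-3 matching in `G`. -/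
structure IsDistThreeMatching {V : Type} (G H : SimpleGraph V) : Prop where
  le : H ≤ G
  matching : ∀ u v w, H.Adj u v → H.Adj u w → v = w
  dist : ∀ u ∈ H.support, ∀ v ∈ H.support, u ≠ v → ¬ H.Adj u v → 3 ≤ G.edist u v

/-- For every distance-3 matching `H` in `G` and every `k ≥ Δ(G) + s`, every total colouring of `H`
with the colours `0, …, k - 1` extends to a total colouring of `G` with these colours. (The question
is whether `AllExtend 2 G` holds for all finite graphs `G`.) -/
def AllExtend (s : ℕ) {n : ℕ} (G : SimpleGraph (Fin n)) : Prop :=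
  ∀ H : SimpleGraph (Fin n), IsDistThreeMatching G H →
    ∀ k : ℕ, (∀ v, (G.neighborSet v).ncard + s ≤ k) →
    ∀ (c : Fin n → ℕ) (d : Sym2 (Fin n) → ℕ), IsTotalColoring H c d →
      (∀ v ∈ H.support, c v < k) → (∀ e ∈ H.edgeSet, d e < k) →
      ∃ (c' : Fin n → ℕ) (d' : Sym2 (Fin n) → ℕ), IsTotalColoring G c' d' ∧
        (∀ v ∈ H.support, c' v = c v) ∧ (∀ e ∈ H.edgeSet, d' e = d e) ∧
        (∀ v, c' v < k) ∧ ∀ e ∈ G.edgeSet, d' e < k

theorem extend_of {n : ℕ} (s : ℕ) (G : SimpleGraph (Fin n)) (h : Pool.Agent.U122.DR.PE s G) :
    AllExtend s G := by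
  intro H hH k hk c d hcd hc hd
  obtain ⟨c', d', h1, h2⟩ := h H ⟨hH.le, hH.matching, hH.dist⟩ k hk c d
    ⟨hcd.vert, hcd.edge, hcd.inc⟩ hc hd
  exact ⟨c', d', ⟨h1.vert, h1.edge, h1.inc⟩, h2⟩

/-- For all `c, ε > 0`, all large `n` and ALL `0 ≤ q ≤ 1 - c`: with probability at least `1 - ε` the
random graph `G(n, q)` has the property of the question (`AllExtend 2`: for every distance-3
matching `H`, all total colourings of `H` with `k ≥ Δ + 2` colours extend), and even
`AllExtend 1` (`k ≥ Δ + 1` colours) if `n q ≥ 1 / log n`. -/
theorem result (c ε : ℝ) (hc : 0 < c) (hε : 0 < ε) : ∃ n₀ : ℕ, ∀ n : ℕ, n₀ ≤ n →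
    ∀ q : ℝ, 0 ≤ q → q ≤ 1 - c →
      1 - ε ≤ prob q (fun G : SimpleGraph (Fin n) =>
        AllExtend 2 G ∧ (1 / Real.log n ≤ n * q → AllExtend 1 G)) := by
  obtain ⟨n₀, h⟩ := Filter.eventually_atTop.1 (Pool.Agent.U531.SR.ext_prob_all c ε hc hε)
  refine ⟨n₀, fun n hn q hq0 hq1 => ?_⟩
  have h1 := h n hn q hq0 hq1
  change 1 - ε ≤ Pool.Agent.U531.SR.probG q _
  rw [Pool.Agent.U531.SR.probG_eq]
  refine h1.trans (Pool.Agent.U531.SR.PR_mono hq0 (by linarith) (fun χ hχ => ?_))
  exact ⟨extend_of 2 _ hχ.1, fun h' => extend_of 1 _ (hχ.2 h')⟩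

end Pool.Agent.Results.MP_db9399_co.RandomGraphsAllDensities
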