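import Mathlib
import Pool.Agent.U605.TL.Fin

/-!
# Extending total colourings of distance-3 matchings when the vertices of large degree have
neighbours of small degree

Let `G` be a finite graph, `H` a distance-3 matching of `G` and `W` a set of vertices (the vertices of
large degree), and let `N ≥ Δ(G) + 1`, one less than in the question. If the vertices outside `W` have
degree less than `N / 2`, and the numbers of the neighbours in `W` of two adjacent vertices `x` outside
and `y` in `W` have sum at most `N - 4`, then every total colouring of `H` and of the subgraph induced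
by `W` extends to a total colouring of `G` with `N` colours, even from lists. So the question is reduced
to the subgraph induced by `W`. If the degrees of this subgraph are at most `d` with
`d + 5000 (1 + log (d + 1)) ≤ N`, all total colourings of `H` extend. In particular this is so if
for some `k ≥ 5000 (1 + log (Δ + 1))` with `2 k ≤ Δ` every vertex of degree more than `k` has at most
`Δ - k - 3` neighbours of degree more than `k`. The starting result `LocalDegree` needs `3 k + 4 ≥ Δ`.

Proof. The edges between a covered vertex outside `W` and `W` are coloured greedily, the other edges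
between `W` and its complement by the theorem of Borodin, Kostochka and Woodall, the edges
outside `W` greedily, and the vertices outside `W` at the end, so that their colours do not restrict
the colours of their edges. The edges inside `W` are coloured by a theorem of the starting files on edge
colourings with few forbidden colours at every vertex.
-/

set_option autoImplicit false
set_option linter.all false

namespace Pool.Agent.Results.MP_db9399_co.SmallDegreeNeighbours

open Finset Pool.Agent.U605.TL

/-- The colours `c` of the vertices and `d` of the edges form a total colouring of `G`: adjacent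
vertices get different colours, distinct edges with a common end get different colours, and an edge
gets a colour different from the colours of its ends. (Values of `d` at pairs that are not edges of
`G` play no role.) -/
structure IsTotalColoring {V : Type} (G : SimpleGraph V) (c : V → ℕ) (d : Sym2 V → ℕ) :
    Prop where
  vert : ∀ u v, G.Adj u v → c u ≠ c v
  edge : ∀ u v w, G.Adj u v → G.Adj u w → v ≠ w → d s(u, v) ≠ d s(u, w)
  inc : ∀ u v, G.Adj u v → d s(u, v) ≠ c u

/-- `H` (with vertex set `H.support`) is a distance-3 matching in `G`. -/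
structure IsDistThreeMatching {V : Type} (G H : SimpleGraph V) : Prop where
  le : H ≤ G
  matching : ∀ u v w, H.Adj u v → H.Adj u w → v = w
  dist : ∀ u ∈ H.support, ∀ v ∈ H.support, u ≠ v → ¬ H.Adj u v → 3 ≤ G.edist u v

/-- Every total colouring of `H` with the colours `0, …, k - 1` extends to a total colouring of
`G` with these colours. -/
def Extends {V : Type} (G H : SimpleGraph V) (k : ℕ) : Prop :=
  ∀ (c : V → ℕ) (d : Sym2 V → ℕ), IsTotalColoring H c d →
    (∀ v ∈ H.support, c v < k) → (∀ e ∈ H.edgeSet, d e < k) →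
    ∃ (c' : V → ℕ) (d' : Sym2 V → ℕ), IsTotalColoring G c' d' ∧
      (∀ v ∈ H.support, c' v = c v) ∧ (∀ e ∈ H.edgeSet, d' e = d e) ∧
      (∀ v, c' v < k) ∧ ∀ e ∈ G.edgeSet, d' e < k

/-- Whenever every vertex and every edge of `G` has a list of at least `k` colours, every total
colouring of `H` (with any colours) extends to a total colouring of `G` in which the vertices and
edges outside `H` get colours from their lists. -/
def ListExtends {V : Type} (G H : SimpleGraph V) (k : ℕ) : Prop :=
  ∀ (L : V → Finset ℕ) (M : Sym2 V → Finset ℕ), (∀ v, k ≤ (L v).card) →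
    (∀ e ∈ G.edgeSet, k ≤ (M e).card) →
    ∀ (c : V → ℕ) (d : Sym2 V → ℕ), IsTotalColoring H c d →
      ∃ (c' : V → ℕ) (d' : Sym2 V → ℕ), IsTotalColoring G c' d' ∧
        (∀ v ∈ H.support, c' v = c v) ∧ (∀ e ∈ H.edgeSet, d' e = d e) ∧
        (∀ v, v ∉ H.support → c' v ∈ L v) ∧
        ∀ e ∈ G.edgeSet, e ∉ H.edgeSet → d' e ∈ M e

/-- the degree of `v` -/
noncomputable def deg {V : Type} (G : SimpleGraph V) (v : V) : ℕ := (G.neighborSet v).ncard

/-- the number of neighbours of `v` in `W` -/
noncomputable def degIn {V : Type} (G : SimpleGraph V) (W : Set V) (v : V) : ℕ :=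
  {w | G.Adj v w ∧ w ∈ W}.ncard

/-- All degrees are less than `N`, the vertices outside `W` have degree less than `N / 2`, and for
adjacent vertices `x` outside and `y` in `W` the numbers of neighbours in `W` have sum at most
`N - 4`. -/
structure Small {V : Type} (G : SimpleGraph V) (W : Set V) (N : ℕ) : Prop where
  all : ∀ v, deg G v < N
  low : ∀ x, x ∉ W → 2 * deg G x < N
  cross : ∀ x y, G.Adj x y → x ∉ W → y ∈ W → degIn G W x + degIn G W y + 4 ≤ N

/-- the graph of the edges of `H` and of the edges of `G` inside `W` -/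
def join {V : Type} (G H : SimpleGraph V) (W : Set V) : SimpleGraph V where
  Adj a b := H.Adj a b ∨ (G.Adj a b ∧ a ∈ W ∧ b ∈ W)
  symm := ⟨fun a b h => by
    rcases h with h | h
    · exact Or.inl h.symm
    · exact Or.inr ⟨h.1.symm, h.2.2, h.2.1⟩⟩
  loopless := ⟨fun a h => by
    rcases h with h | h
    · exact H.loopless.irrefl a h
    · exact G.loopless.irrefl a h.1⟩

/-- Whenever every vertex and every edge of `G` has a list of at least `N` colours, every total
colouring (with any colours) of the graph formed by `H` and the subgraph induced by `W`, with different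
colours at any two vertices of this graph which are adjacent in `G`, extends to a total
colouring of `G` in which the other vertices and edges get colours from their lists. -/
def RelExtends {V : Type} (G H : SimpleGraph V) (W : Set V) (N : ℕ) : Prop :=
  ∀ (L : V → Finset ℕ) (M : Sym2 V → Finset ℕ), (∀ v, N ≤ (L v).card) →
    (∀ e ∈ G.edgeSet, N ≤ (M e).card) →
    ∀ (c : V → ℕ) (d : Sym2 V → ℕ), IsTotalColoring (join G H W) c d →
      (∀ u v, G.Adj u v → u ∈ W ∪ H.support → v ∈ W ∪ H.support → c u ≠ c v) →
      ∃ (c' : V → ℕ) (d' : Sym2 V → ℕ), IsTotalColoring G c' d' ∧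
        (∀ v ∈ W ∪ H.support, c' v = c v) ∧ (∀ e ∈ (join G H W).edgeSet, d' e = d e) ∧
        (∀ v, v ∉ W ∪ H.support → c' v ∈ L v) ∧
        ∀ e ∈ G.edgeSet, e ∉ (join G H W).edgeSet → d' e ∈ M e

theorem far_one {a b : ℕ} : far 1 a b ↔ b ≠ a := by
  unfold far
  omega

theorem dist_facts {V : Type} [Fintype V] {G H : SimpleGraph V} (hH : IsDistThreeMatching G H) :
    (∀ u v, G.Adj u v → (∃ x, H.Adj u x) → (∃ y, H.Adj v y) → H.Adj u v) ∧
    (∀ v, nin G (fun w => ∃ x, H.Adj w x) v ≤ 2) := by
  have hA : ∀ u v, G.Adj u v → (∃ x, H.Adj u x) → (∃ y, H.Adj v y) → H.Adj u v := by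
    rintro u v huv ⟨x, hx⟩ ⟨y, hy⟩
    by_contra hn
    have h3 := hH.dist u ⟨x, hx⟩ v ⟨y, hy⟩ huv.ne hn
    have h4 : G.edist u v ≤ 1 := by
      have := SimpleGraph.edist_le (SimpleGraph.Walk.cons huv SimpleGraph.Walk.nil)
      simpa using this
    have h5 : (3 : ℕ∞) ≤ 1 := h3.trans h4
    exact absurd h5 (by decide)
  refine ⟨hA, ?_⟩
  have hB : ∀ u v w, G.Adj w u → G.Adj w v → (∃ x, H.Adj u x) → (∃ y, H.Adj v y) → u ≠ v →
      H.Adj u v := by
    rintro u v w hwu hwv ⟨x, hx⟩ ⟨y, hy⟩ huv
    by_contra hn
    have h3 := hH.dist u ⟨x, hx⟩ v ⟨y, hy⟩ huv hn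
    have h4 : G.edist u v ≤ 2 := by
      have := SimpleGraph.edist_le (SimpleGraph.Walk.cons hwu.symm
        (SimpleGraph.Walk.cons hwv SimpleGraph.Walk.nil))
      simpa using this
    have h5 : (3 : ℕ∞) ≤ 2 := h3.trans h4
    exact absurd h5 (by decide)
  intro v
  unfold nin
  by_cases hex : ∃ w, G.Adj v w ∧ ∃ x, H.Adj w x
  · obtain ⟨w, hvw, x, hwx⟩ := hex
    refine le_trans (Set.ncard_le_ncard (t := {w, x}) ?_ (Set.toFinite _))
      ((Set.ncard_insert_le w {x}).trans (by simp))
    rintro z ⟨hvz, y, hzy⟩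
    by_cases hzw : z = w
    · exact Or.inl hzw
    · right
      have h1 := hB w z v hvw hvz ⟨x, hwx⟩ ⟨y, hzy⟩ (Ne.symm hzw)
      exact hH.matching w z x h1 hwx
  · have : {w | G.Adj v w ∧ ∃ x, H.Adj w x} = ∅ := by
      rw [Set.eq_empty_iff_forall_notMem]
      rintro w ⟨h1, h2⟩
      exact hex ⟨w, h1, h2⟩
    rw [this]
    simp

theorem nin_eq {V : Type} (G : SimpleGraph V) (W : Set V) (v : V) :
    nin G (fun w => w ∈ W) v = degIn G W v := rfl

theorem degIn_le {V : Type} [Fintype V] (G : SimpleGraph V) (W : Set V) (v : V) :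
    degIn G W v ≤ deg G v :=
  Set.ncard_le_ncard (fun w hw => hw.1) (Set.toFinite _)

/-- the relative version -/
theorem rel_part (V : Type) [Fintype V] (G H : SimpleGraph V) (W : Set V) (N : ℕ)
    (hH : IsDistThreeMatching G H) (hS : Small G W N) : RelExtends G H W N := by
  classical
  intro L M hL hM c d hcd hadj
  obtain ⟨hDD, htwo⟩ := dist_facts hH
  have hr2 : ∀ y, nin G (fun w => ¬ (w ∈ W) ∧ w ∈ H.support) y ≤ 2 := by
    intro y
    refine le_trans (Set.ncard_le_ncard ?_ (Set.toFinite _)) (htwo y)
    intro w hw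
    exact ⟨hw.1, hw.2.2⟩
  obtain ⟨f, g, a1, a2, a3, a4, a5, a6, a7⟩ := attach (p := 1) (N := N) le_rfl G (join G H W)
    (by
      rintro a b (h | h)
      · exact hH.le h
      · exact h.1)
    (fun v => v ∈ W) (fun v => v ∈ H.support)
    (fun u v huv hu hv => Or.inr ⟨huv, hu, hv⟩)
    (by
      rintro u v (h | h) hu
      · exact ⟨v, h⟩
      · exact absurd h.2.1 hu)
    (fun u v huv hu hv => Or.inl (hDD u v huv hu hv))
    (by
      intro u hu
      unfold nin
      rw [Set.ncard_le_one (Set.toFinite _)]
      rintro a ⟨ha1, ha2⟩ b ⟨hb1, hb2⟩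
      have h1 : H.Adj u a := by
        rcases ha1 with h | h
        · exact h
        · exact absurd h.2.1 hu
      have h2 : H.Adj u b := by
        rcases hb1 with h | h
        · exact h
        · exact absurd h.2.1 hu
      exact hH.matching u a b h1 h2)
    L M (fun v _ _ => hL v) (fun u v huv _ => hM _ huv) c d
    (fun u v hu hv huv => hadj u v huv hu hv)
    hcd.edge
    (fun u v huv => far_one.2 (hcd.inc u v huv))
    (by
      intro x hx
      have := hS.low x hx
      have e : Pool.Agent.TH559.LE.dg G x = deg G x := rfl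
      rw [e]
      omega)
    (by
      intro x y hxy hx _ hy
      have h1 := hS.cross x y hxy hx hy
      have h2 := hr2 y
      have h3 := hS.all y
      have e : Pool.Agent.TH559.LE.dg G y = deg G y := rfl
      rw [nin_eq, nin_eq, e]
      omega)
    (by
      intro x y hxy _ hx _ hy
      have h1 := hS.cross x y hxy hx hy
      have h2 := hr2 y
      rw [nin_eq, nin_eq]
      omega)
  refine ⟨f, g, ⟨a1, a2, fun u v huv => far_one.1 (a3 u v huv)⟩, ?_, ?_, ?_, ?_⟩
  · intro v hv
    exact a4 v hv
  · intro e
    induction e using Sym2.ind with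
    | _ u v =>
      intro he
      exact a5 u v he
  · intro v hv
    exact a6 v (fun h => hv (Or.inl h)) (fun h => hv (Or.inr h))
  · intro e
    induction e using Sym2.ind with
    | _ u v =>
      intro he hn
      exact a7 u v he hn

/-- from the edges inside `W` -/
theorem base (V : Type) [Fintype V] (G H : SimpleGraph V) (W : Set V) (N : ℕ)
    (hH : IsDistThreeMatching G H) (hS : Small G W N) (L : V → Finset ℕ) (M : Sym2 V → Finset ℕ)
    (hL : ∀ v, N ≤ (L v).card) (hM : ∀ e ∈ G.edgeSet, N ≤ (M e).card)
    (key : ∀ Z : V → Finset ℕ, (∀ v, (Z v).card ≤ 2) →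
      Pool.Agent.H162R2.Sparse.LC (ins G H (fun v => v ∈ W)) (fun u v => M s(u, v) \ (Z u ∪ Z v)))
    (c : V → ℕ) (d : Sym2 V → ℕ) (hcd : IsTotalColoring H c d) :
    ∃ (c' : V → ℕ) (d' : Sym2 V → ℕ), IsTotalColoring G c' d' ∧
        (∀ v ∈ H.support, c' v = c v) ∧ (∀ e ∈ H.edgeSet, d' e = d e) ∧
        (∀ v, v ∉ H.support → c' v ∈ L v) ∧
        ∀ e ∈ G.edgeSet, e ∉ H.edgeSet → d' e ∈ M e := by
  obtain ⟨hDD, htwo⟩ := dist_facts hH
  obtain ⟨f, g, a1, a2, a3, a4, a5, a6, a7⟩ := fin (p := 1) (N := N) le_rfl G H hH.le hH.matching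
    hDD htwo (fun v => v ∈ W) L M (fun v _ => hL v) (fun u v huv _ => hM _ huv)
    (fun v => hS.all v) c d hcd.vert (fun u v huv => far_one.2 (hcd.inc u v huv))
    (by
      intro x hx
      have := hS.low x hx
      have e : Pool.Agent.TH559.LE.dg G x = deg G x := rfl
      rw [e]
      omega)
    (by
      intro x y hxy hx hy
      have h1 := hS.cross x y hxy hx hy
      have h3 := hS.all y
      have e : Pool.Agent.TH559.LE.dg G y = deg G y := rfl
      rw [nin_eq, nin_eq, e]
      omega)
    (fun Z hZ => key Z (fun v => by have := hZ v; omega))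
  refine ⟨f, g, ⟨a1, a2, fun u v huv => far_one.1 (a3 u v huv)⟩, fun v hv => a4 v hv, ?_,
    fun v hv => a6 v hv, ?_⟩
  · intro e
    induction e using Sym2.ind with
    | _ u v =>
      intro he
      exact a5 u v he
  · intro e
    induction e using Sym2.ind with
    | _ u v =>
      intro he hn
      exact a7 u v he hn

/-- ordinary colours -/
theorem plain_part (V : Type) [Fintype V] (G H : SimpleGraph V) (W : Set V) (N d : ℕ)
    (hH : IsDistThreeMatching G H) (hS : Small G W N) (hd : ∀ y ∈ W, degIn G W y ≤ d)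
    (hN : (d : ℝ) + 5000 * (1 + Real.log (d + 1)) ≤ N) : Extends G H N := by
  classical
  intro c e hce hc he
  obtain ⟨c', e', h1, h2, h3, h4, h5⟩ := base V G H W N hH hS (fun _ => range N)
    (fun _ => range N) (fun _ => by rw [card_range]) (fun _ _ => by rw [card_range])
    (by
      intro Z hZ
      refine Pool.Agent.N577.DT.edge_avoid (ins G H (fun v => v ∈ W)) d 2 N
        (ins_deg G H _ d hd) Z hZ (by norm_num) ?_
      push_cast
      linarith)
    c e hce
  refine ⟨c', e', h1, h2, h3, ?_, ?_⟩
  · intro v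
    by_cases hv : v ∈ H.support
    · rw [h2 v hv]
      exact hc v hv
    · exact mem_range.1 (h4 v hv)
  · intro x hx
    by_cases hxH : x ∈ H.edgeSet
    · rw [h3 x hxH]
      exact he x hxH
    · exact mem_range.1 (h5 x hx hxH)

/-- lists -/
theorem list_part : ∃ K : ℝ, ∀ ε : ℝ, 0 < ε → ∃ n₀ : ℕ, ∀ (V : Type) [Fintype V]
    (G H : SimpleGraph V) (W : Set V) (N d : ℕ), IsDistThreeMatching G H → Small G W N →
    (∀ y ∈ W, degIn G W y ≤ d) →
    ((d : ℝ) + 4 + K * (Real.sqrt (d * Real.log (Fintype.card V)) +
        Real.log (Fintype.card V)) ≤ N ∨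
      n₀ ≤ Fintype.card V ∧
        (d : ℝ) + 4 + ε * Real.sqrt (Fintype.card V * Real.log (Fintype.card V)) ≤ N) →
    ListExtends G H N := by
  classical
  obtain ⟨K, hK, hSq⟩ := Pool.Agent.H892.LEC.col_S
  refine ⟨K, fun ε hε => ?_⟩
  obtain ⟨n₀, hDn⟩ := Pool.Agent.H892.LEC.col_D ε hε
  refine ⟨n₀, ?_⟩
  intro V _ G H W N d hH hS hd hN L M hL hM c e hce
  refine base V G H W N hH hS L M hL hM ?_ c e hce
  intro Z hZ
  have hdeg := ins_deg G H (fun v => v ∈ W) d hd
  have hsym : ∀ x y : V, M s(x, y) \ (Z x ∪ Z y) = M s(y, x) \ (Z y ∪ Z x) := by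
    intro x y
    rw [Sym2.eq_swap, Finset.union_comm]
  have hcard : ∀ x y : V, (ins G H (fun v => v ∈ W)).Adj x y →
      (N : ℝ) ≤ ((M s(x, y) \ (Z x ∪ Z y)).card : ℝ) + 4 := by
    intro x y hxy
    have h1 := hM s(x, y) hxy.1
    have h2 := Finset.le_card_sdiff (Z x ∪ Z y) (M s(x, y))
    have h3 := Finset.card_union_le (Z x) (Z y)
    have h4 := hZ x
    have h5 := hZ y
    have h6 : N ≤ (M s(x, y) \ (Z x ∪ Z y)).card + 4 := by omega
    exact_mod_cast h6
  rcases hN with hN | ⟨hn, hN⟩
  · refine hSq V (ins G H (fun v => v ∈ W)) d hdeg _ hsym (fun x y hxy => ?_)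
    have h7 := hcard x y hxy
    linarith
  · refine hDn V (ins G H (fun v => v ∈ W)) d hn hdeg _ hsym (fun x y hxy => ?_)
    have h7 := hcard x y hxy
    linarith

/-- a threshold for the degrees -/
theorem small_of (V : Type) [Fintype V] (G : SimpleGraph V) (Δ k d N : ℕ)
    (hΔ : ∀ v, deg G v ≤ Δ) (h2 : 2 * k ≤ Δ)
    (hd : ∀ v, k < deg G v → degIn G {w | k < deg G w} v ≤ d) (hk : d + k + 3 ≤ Δ)
    (hN : Δ + 1 ≤ N) : Small G {w | k < deg G w} N := by
  refine ⟨?_, ?_, ?_⟩
  · intro v
    have := hΔ v
    omega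
  · intro x hx
    have : deg G x ≤ k := not_lt.1 hx
    omega
  · intro x y _ hx hy
    have h3 : deg G x ≤ k := not_lt.1 hx
    have h4 := degIn_le G {w | k < deg G w} x
    have h5 := hd y hy
    omega

/-- **Extending total colourings of distance-3 matchings to graphs in which the vertices of large degree
have enough neighbours of small degree.** `G` is a finite graph and `H` a distance-3 matching in `G`.

1. If `Small G W N` then every total colouring of `H` together with the subgraph induced by `W` extends
to `G`, from all lists of `N` colours for the other vertices and edges.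
2. If moreover the vertices in `W` have at most `d` neighbours in `W` and
`d + 5000 (1 + log (d + 1)) ≤ N`, then every total colouring of `H` with `N` colours extends to `G`.
3. Let all degrees be at most `Δ`, let `2 k ≤ Δ`, and let every vertex of degree more than `k` have at
most `d` neighbours of degree more than `k`, where `d + k + 3 ≤ Δ` and
`d + 5000 (1 + log (d + 1)) ≤ Δ + 1`. Then all total colourings of `H` with `N ≥ Δ + 1` colours extend
to `G`; for `N = Δ + 2` this is the assertion of Q1. In particular this is so if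
`5000 (1 + log (Δ + 1)) ≤ k` and `2 k ≤ Δ`, and every vertex of degree more than `k` has at most
`Δ - k - 3` neighbours of degree more than `k`.
4. The same as 2 with lists of `N` colours, if `d + 4 + K (√(d log n) + log n) ≤ N`, or if `n ≥ n₀(ε)`
and `d + 4 + ε √(n log n) ≤ N`, where `n` is the number of vertices. -/
theorem result :
    (∀ (V : Type) [Fintype V] (G H : SimpleGraph V) (W : Set V) (N : ℕ),
      IsDistThreeMatching G H → Small G W N → RelExtends G H W N) ∧
    (∀ (V : Type) [Fintype V] (G H : SimpleGraph V) (W : Set V) (N d : ℕ),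
      IsDistThreeMatching G H → Small G W N → (∀ y ∈ W, degIn G W y ≤ d) →
      (d : ℝ) + 5000 * (1 + Real.log (d + 1)) ≤ N → Extends G H N) ∧
    (∀ (V : Type) [Fintype V] (G H : SimpleGraph V) (Δ k : ℕ),
      IsDistThreeMatching G H → (∀ v, deg G v ≤ Δ) → 2 * k ≤ Δ →
      ((∃ d : ℕ, (∀ v, k < deg G v → degIn G {w | k < deg G w} v ≤ d) ∧ d + k + 3 ≤ Δ ∧
          (d : ℝ) + 5000 * (1 + Real.log (d + 1)) ≤ Δ + 1) ∨
        (5000 * (1 + Real.log (Δ + 1)) ≤ k ∧
          ∀ v, k < deg G v → degIn G {w | k < deg G w} v + k + 3 ≤ Δ)) →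
      ∀ N : ℕ, Δ + 1 ≤ N → Extends G H N) ∧
    (∃ K : ℝ, ∀ ε : ℝ, 0 < ε → ∃ n₀ : ℕ, ∀ (V : Type) [Fintype V]
      (G H : SimpleGraph V) (W : Set V) (N d : ℕ), IsDistThreeMatching G H → Small G W N →
      (∀ y ∈ W, degIn G W y ≤ d) →
      ((d : ℝ) + 4 + K * (Real.sqrt (d * Real.log (Fintype.card V)) +
          Real.log (Fintype.card V)) ≤ N ∨
        n₀ ≤ Fintype.card V ∧
          (d : ℝ) + 4 + ε * Real.sqrt (Fintype.card V * Real.log (Fintype.card V)) ≤ N) →
      ListExtends G H N) := by
  refine ⟨fun V _ G H W N hH hS => rel_part V G H W N hH hS,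
    fun V _ G H W N d hH hS hd hN => plain_part V G H W N d hH hS hd hN, ?_, list_part⟩
  intro V _ G H Δ k hH hΔ h2 hcase N hN
  obtain ⟨d, hd, hk, hlog⟩ : ∃ d : ℕ, (∀ v, k < deg G v → degIn G {w | k < deg G w} v ≤ d) ∧
      d + k + 3 ≤ Δ ∧ (d : ℝ) + 5000 * (1 + Real.log (d + 1)) ≤ Δ + 1 := by
    rcases hcase with h | ⟨h1, h3⟩
    · exact h
    · have hkr : (3 : ℝ) < k := by
        have h4 : 0 ≤ Real.log ((Δ : ℝ) + 1) := Real.log_nonneg (by
          have : (0 : ℝ) ≤ Δ := by positivity
          linarith)
        linarith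
      have hk3 : 3 < k := by exact_mod_cast hkr
      obtain ⟨d, hdd⟩ : ∃ d, d + k + 3 = Δ := ⟨Δ - k - 3, by omega⟩
      refine ⟨d, ?_, by omega, ?_⟩
      · intro v hv
        have := h3 v hv
        omega
      · have h5 : Real.log ((d : ℝ) + 1) ≤ Real.log ((Δ : ℝ) + 1) := by
          apply Real.log_le_log
          · positivity
          · have : (d : ℝ) ≤ Δ := by exact_mod_cast (by omega : d ≤ Δ)
            linarith
        have h6 : (d : ℝ) + k + 3 = Δ := by exact_mod_cast hdd
        linarith
  refine plain_part V G H {w | k < deg G w} N d hH (small_of V G Δ k d N hΔ h2 hd hk hN) hd ?_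
  have : ((Δ : ℝ) + 1) ≤ N := by exact_mod_cast hN
  linarith

end Pool.Agent.Results.MP_db9399_co.SmallDegreeNeighbours
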