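import Pool.Agent.U531.SR.TotHet

set_option autoImplicit false

/-!
# Extending total colourings of distance-3 matchings in random graphs with unequal edge probabilities

Random graphs with independent edges of arbitrary probabilities, in which the largest expected
degree `M` is at least `C log n` and the vertices of expected degree more than about `M / 2` have
enough neighbours of smaller expected degree. For instance the random graphs with given expected
degrees (Chung and Lu) whose degrees follow a power law. With probability at least `1 - 1 / n`, all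
total colourings of all distance-3 matchings extend, with one colour less than in the question, and
also from lists.

The deterministic theorem used is that of the result `SmallDegreeNeighbours` of helper605. The
result `RandomGraphs` of helper122 is about dense random graphs, the result
`RandomGraphsAllDensities` about equal probabilities.
-/

namespace Pool.Agent.Results.MP_db9399_co.UnequalEdgeProbabilities

/-- Edge probabilities: `q e` is the probability that the pair `e` is an edge; all pairs are
independent. `prob q P` is the probability that the random graph has the property `P`. -/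
noncomputable def prob {n : ℕ} (q : Sym2 (Fin n) → ℝ) (P : SimpleGraph (Fin n) → Prop) : ℝ := by
  classical exact ∑ G : SimpleGraph (Fin n), if P G then
    (∏ e : {e : Sym2 (Fin n) // ¬ e.IsDiag}, if e.1 ∈ G.edgeSet then q e.1 else 1 - q e.1) else 0

/-- The expected number of neighbours of the vertex `v` in the set `A`. -/
noncomputable def expectedDegree {n : ℕ} (q : Sym2 (Fin n) → ℝ) (A : Finset (Fin n))
    (v : Fin n) : ℝ :=
  ∑ w ∈ A.erase v, q s(v, w)

/-- The edge probabilities `w i w j / ∑ w`. -/
noncomputable def chungLu {n : ℕ} (w : Fin n → ℝ) : Sym2 (Fin n) → ℝ :=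
  Sym2.lift ⟨fun i j => w i * w j / ∑ k, w k, fun i j => by
    show w i * w j / ∑ k, w k = w j * w i / ∑ k, w k
    rw [mul_comm (w i)]⟩

/-- The colours `c` of the vertices and `d` of the edges form a total colouring of `G`: adjacent
vertices get different colours, distinct edges with a common end get different colours, and an edge
gets a colour different from the colours of its ends. (Values of `d` at pairs that are not edges of
`G` play no role.) -/
structure IsTotalColoring {V : Type} (G : SimpleGraph V) (c : V → ℕ) (d : Sym2 V → ℕ) :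
    Prop where
  vert : ∀ u v, G.Adj u v → c u ≠ c v
  edge : ∀ u v w, G.Adj u v → G.Adj u w → v ≠ w → d s(u, v) ≠ d s(u, w)
  inc : ∀ u v, G.Adj u v → d s(u, v) ≠ c u

/-- `H` (with vertex set `H.support`) is a distance-3 matching in `G`. -/
structure IsDistThreeMatching {V : Type} (G H : SimpleGraph V) : Prop where
  le : H ≤ G
  matching : ∀ u v w, H.Adj u v → H.Adj u w → v = w
  dist : ∀ u ∈ H.support, ∀ v ∈ H.support, u ≠ v → ¬ H.Adj u v → 3 ≤ G.edist u v

/-- Every total colouring of `H` with the colours `0, …, k - 1` extends to a total colouring of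
`G` with these colours. -/
def Extends {V : Type} (G H : SimpleGraph V) (k : ℕ) : Prop :=
  ∀ (c : V → ℕ) (d : Sym2 V → ℕ), IsTotalColoring H c d →
    (∀ v ∈ H.support, c v < k) → (∀ e ∈ H.edgeSet, d e < k) →
    ∃ (c' : V → ℕ) (d' : Sym2 V → ℕ), IsTotalColoring G c' d' ∧
      (∀ v ∈ H.support, c' v = c v) ∧ (∀ e ∈ H.edgeSet, d' e = d e) ∧
      (∀ v, c' v < k) ∧ ∀ e ∈ G.edgeSet, d' e < k

/-- Whenever every vertex and every edge of `G` has a list of at least `k` colours, every total
colouring of `H` (with any colours) extends to a total colouring of `G` in which the vertices and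
edges outside `H` get colours from their lists. -/
def ListExtends {V : Type} (G H : SimpleGraph V) (k : ℕ) : Prop :=
  ∀ (L : V → Finset ℕ) (M : Sym2 V → Finset ℕ), (∀ v, k ≤ (L v).card) →
    (∀ e ∈ G.edgeSet, k ≤ (M e).card) →
    ∀ (c : V → ℕ) (d : Sym2 V → ℕ), IsTotalColoring H c d →
      ∃ (c' : V → ℕ) (d' : Sym2 V → ℕ), IsTotalColoring G c' d' ∧
        (∀ v ∈ H.support, c' v = c v) ∧ (∀ e ∈ H.edgeSet, d' e = d e) ∧
        (∀ v, v ∉ H.support → c' v ∈ L v) ∧
        ∀ e ∈ G.edgeSet, e ∉ H.edgeSet → d' e ∈ M e

/-- For every distance-3 matching `H` in `G` and every `k ≥ Δ(G) + 1`, every total colouring of `H`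
with `k` colours extends to a total colouring of `G` with these colours, and every total colouring of
`H` extends from all lists of at least `k` colours. (The question asks for `k = Δ(G) + 2`, without
lists.) -/
def AllExtend {n : ℕ} (G : SimpleGraph (Fin n)) : Prop :=
  ∀ H : SimpleGraph (Fin n), IsDistThreeMatching G H →
    ∀ k : ℕ, (∀ v, (G.neighborSet v).ncard + 1 ≤ k) → Extends G H k ∧ ListExtends G H k

theorem all_of {n : ℕ} (G : SimpleGraph (Fin n)) (h : Pool.Agent.U531.SR.TW.AllL G) :
    AllExtend G := by
  classical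
  intro H hH k hk
  have hL : ListExtends G H k := by
    intro L M hL hM c d hcd
    obtain ⟨c', d', h1, h2⟩ := h H ⟨hH.le, hH.matching, hH.dist⟩ k hk L M hL hM c d
      ⟨hcd.vert, hcd.edge, hcd.inc⟩
    exact ⟨c', d', ⟨h1.vert, h1.edge, h1.inc⟩, h2⟩
  refine ⟨?_, hL⟩
  intro c e hce hc he
  obtain ⟨c', e', h1, h2, h3, h4, h5⟩ := hL (fun _ => Finset.range k)
    (fun _ => Finset.range k) (fun _ => by rw [Finset.card_range])
    (fun _ _ => by rw [Finset.card_range]) c e hce
  refine ⟨c', e', h1, h2, h3, ?_, ?_⟩
  · intro v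
    by_cases hv : v ∈ H.support
    · rw [h2 v hv]
      exact hc v hv
    · exact Finset.mem_range.1 (h4 v hv)
  · intro x hx
    by_cases hxH : x ∈ H.edgeSet
    · rw [h3 x hxH]
      exact he x hxH
    · exact Finset.mem_range.1 (h5 x hx hxH)

theorem prob_of {n : ℕ} (q : Sym2 (Fin n) → ℝ) (hq : ∀ e, 0 ≤ q e ∧ q e ≤ 1)
    (x : ℝ) (h : x ≤ Pool.Agent.U531.SR.probQ q (fun G : SimpleGraph (Fin n) =>
      Pool.Agent.U531.SR.TW.AllL G)) :
    x ≤ prob q (fun G => AllExtend G) := by
  change x ≤ Pool.Agent.U531.SR.probQ q _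
  rw [Pool.Agent.U531.SR.probQ_eq] at h ⊢
  exact h.trans (Pool.Agent.U531.SR.PQ_mono (fun e => hq e.1) (fun χ hχ => all_of _ hχ))

/-- There is a constant `C > 0` with the following properties.

(1) Let `0 < η ≤ 1 / 2`, `n ≥ 2`, `0 ≤ β ≤ 1 / 2`, let `q` be edge probabilities on `n` vertices,
let `M ≥ (C / η²) log n`, let some vertex have expected degree at least `M`, and let `W` be a set
of vertices such that every vertex outside `W` has expected degree at most `(1 / 2 - η) M` and at
most `β M` expected neighbours in `W`, and every vertex in `W` has at most `(1 - β - η) M` expected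
neighbours in `W`. Then the random graph `G` with the edge probabilities `q` has with probability at
least `1 - 1 / n` the property `AllExtend`: for all distance-3 matchings `H` in `G`, all total
colourings of `H` with `Δ + 1` or more colours extend to `G`, also from lists of `Δ + 1` colours.

(2) Let `η > 0`, `n ≥ 2`, let `w` be nonnegative weights of the vertices with
`w i w j ≤ S = ∑ w`, let `m` be the largest weight, `m ≥ (C / η²) log n`, and let
`0 ≤ x ≤ 1 / 2 - η`, `0 ≤ φ` and `(1 + x) φ ≤ 1 - η`. If the vertices of weight more than `x m` have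
total weight at most `φ S`, then the random graph with the edge probabilities `w i w j / S` has the
property `AllExtend` with probability at least `1 - 1 / n`. -/
theorem result : ∃ C : ℝ, 0 < C ∧
    (∀ (η : ℝ), 0 < η → η ≤ 1 / 2 → ∀ n : ℕ, 2 ≤ n → ∀ q : Sym2 (Fin n) → ℝ,
      (∀ e, 0 ≤ q e ∧ q e ≤ 1) → ∀ (M β : ℝ) (W : Finset (Fin n)),
      C / η ^ 2 * Real.log n ≤ M → 0 ≤ β → β ≤ 1 / 2 →
      (∃ v, M ≤ expectedDegree q Finset.univ v) →
      (∀ v, v ∉ W → expectedDegree q Finset.univ v ≤ (1 / 2 - η) * M ∧
        expectedDegree q W v ≤ β * M) →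
      (∀ v, v ∈ W → expectedDegree q W v ≤ (1 - β - η) * M) →
      1 - 1 / n ≤ prob q (fun G => AllExtend G)) ∧
    (∀ (η : ℝ), 0 < η → ∀ n : ℕ, 2 ≤ n → ∀ w : Fin n → ℝ, (∀ i, 0 ≤ w i) →
      (∀ i j, w i * w j ≤ ∑ k, w k) → ∀ m x φ : ℝ, (∀ i, w i ≤ m) → (∃ i, w i = m) →
      C / η ^ 2 * Real.log n ≤ m → 0 ≤ x → 0 ≤ φ → x ≤ 1 / 2 - η →
      (1 + x) * φ ≤ 1 - η →
      (∑ i ∈ Finset.univ.filter (fun i => x * m < w i), w i ≤ φ * ∑ k, w k) →
      1 - 1 / n ≤ prob (chungLu w) (fun G => AllExtend G)) := by
  obtain ⟨C, hC, hmain⟩ := Pool.Agent.U531.SR.TW.het_ext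
  refine ⟨8 * C + 100, by positivity, ?_, ?_⟩
  · intro η hη hη1 n hn q hq M β W hM hβ0 hβ hmax hout hin
    refine prob_of q hq _ (hmain η hη hη1 n hn q hq M β W ?_ hβ0 hβ hmax hout hin)
    refine le_trans (mul_le_mul_of_nonneg_right ?_ (Real.log_natCast_nonneg n)) hM
    exact div_le_div_of_nonneg_right (by linarith) (by positivity)
  · intro η hη n hn w hw hww m x φ hm hm' hmK hx0 hφ0 hx hφ hheavy
    have hq : ∀ e, 0 ≤ chungLu w e ∧ chungLu w e ≤ 1 := by
      intro e
      induction e using Sym2.ind with
      | _ i j =>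
        have hS : 0 ≤ ∑ k, w k := Finset.sum_nonneg fun k _ => hw k
        refine ⟨div_nonneg (mul_nonneg (hw i) (hw j)) hS, ?_⟩
        show w i * w j / ∑ k, w k ≤ 1
        exact div_le_one_of_le₀ (hww i j) hS
    exact prob_of (chungLu w) hq _
      (Pool.Agent.U531.SR.TW.cl_ext C hC hmain η hη n hn w hw hww m x φ hm hm' hmK hx0 hφ0 hx hφ
        hheavy)

end Pool.Agent.Results.MP_db9399_co.UnequalEdgeProbabilities
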